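import Pool.Agent.Helper68.LD2.WB21
import Pool.Agent.Helper88.LD2.WB22
import Pool.Agent.Helper52.LD2.GC2
import Pool.Agent.Helper34.LD2.WA2
import Pool.Agent.Helper41.LD.P

/-!
# Project LD2, block S2: one block of the construction for a general family of functions
-/

set_option autoImplicit false

namespace Pool.Agent.Helper9.LD2

open Set MeasureTheory Filter Topology
open Pool.Agent.Helper41.LD (idx steer_step)
open Pool.Agent.Helper41.LD2
open Pool.Agent.Helper34.LD2 (M_children)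
open Pool.Agent.Helper68.LD2 (M_inc M_var)
open Pool.Agent.Helper88.LD2 (W_nonneg W_le W_mean)
open Pool.Agent.Helper52.LD2 (gain)

variable {U : ℕ → ℝ → ℝ} {β : ℝ}

lemma sum_mu (K : ℕ) : ∑ p ∈ idx K, (1 / 2 : ℝ) ^ p.1 = K := by
  unfold idx
  rw [Finset.sum_sigma]
  have : ∀ k ∈ Finset.range K, ∑ s ∈ Finset.range (2 ^ k), (1 / 2 : ℝ) ^ (⟨k, s⟩ : Σ _ : ℕ, ℕ).1 = 1 := by
    intro k _
    show ∑ s ∈ Finset.range (2 ^ k), (1 / 2 : ℝ) ^ k = 1
    rw [Finset.sum_const, Finset.card_range, nsmul_eq_mul]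
    push_cast
    rw [← mul_pow]
    norm_num
  rw [Finset.sum_congr rfl this]
  simp

lemma lt_of_idx {K : ℕ} {p : Σ _ : ℕ, ℕ} (hp : p ∈ idx K) : p.1 < K := by
  unfold idx at hp
  rw [Finset.mem_sigma, Finset.mem_range] at hp
  exact hp.1

open Classical in
theorem step (hβ : 1 < β) {K n m m' L r t B : ℕ} (hK : 2 ≤ K) (hC : β / (β - 1) ≤ K) (hKL : K ≤ L) (hr1 : 1 ≤ r) (hL : 3 * r ≤ L)
    (hbig : 8192 * K * L ≤ 2 ^ K) {a ℓ : ℝ} (hw : Wd U β n m a ℓ) (hm : n + L ≤ m) (hB : 1 ≤ B)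
    (hw' : ∀ b < B, Wd U β (n + L) m' (a + b * (ℓ / B)) (ℓ / B))
    (hPC : ∀ k < K, ∀ i < 2 ^ k, ∀ k' < K, ∀ i' < 2 ^ k',
      |(∑ b ∈ Finset.range B, (M U k i (a + b * (ℓ / B)) (ℓ / B) - M U k i a ℓ) * A U k' i' t (a + b * (ℓ / B)) (ℓ / B)) / B -
        (if k = k' ∧ i = i' then (1 / 2) ^ k else 0)| ≤ (1 / 2) ^ (4 * K))
    (hNB : NB U n r K a ℓ) (hPot : Pot U n r K (1 / (8192 * K * (L : ℝ) ^ 2)) a ℓ ≤ 16 ^ K) :
    2 * (1 / 2 : ℝ) ^ (3 * K) * B ≤ (((Finset.range B).filter fun b : ℕ =>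
      Pot U (n + L) r K (1 / (8192 * K * (L : ℝ) ^ 2)) (a + b * (ℓ / B)) (ℓ / B) ≤ 16 ^ K).card : ℝ) := by
  have hβ0 : 0 < β := by linarith
  have hC0 : 0 < β / (β - 1) := div_pos hβ0 (by linarith)
  have hK1 : (2 : ℝ) ≤ K := by exact_mod_cast hK
  have hKL' : (K : ℝ) ≤ L := by exact_mod_cast hKL
  have hCL : β / (β - 1) ≤ L := hC.trans hKL'
  have h3r : 3 * (r : ℝ) ≤ L := by exact_mod_cast hL
  have hr1' : (1 : ℝ) ≤ r := by exact_mod_cast hr1
  have hL3 : (3 : ℝ) ≤ L := by linarith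
  have hB1 : (1 : ℝ) ≤ B := by exact_mod_cast hB
  have hbig' : 8192 * (K : ℝ) * L ≤ 2 ^ K := by exact_mod_cast hbig
  have hℓ : 0 < ℓ := hw.pos
  have hℓB : 0 < ℓ / B := by positivity
  -- the parameters
  obtain ⟨lam, hlam⟩ : ∃ lam : ℝ, lam = 1 / (8192 * K * (L : ℝ) ^ 2) := ⟨_, rfl⟩
  obtain ⟨D, hD⟩ : ∃ D : ℝ, D = 2 * ((L : ℝ) + r) + 2 * (β / (β - 1)) := ⟨_, rfl⟩
  obtain ⟨ρ, hρ⟩ : ∃ ρ : ℝ, ρ = 2 * (1 / 2) ^ (3 * K) := ⟨_, rfl⟩
  have hlam0 : 0 < lam := by rw [hlam]; positivity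
  have hD0 : 0 < D := by rw [hD]; positivity
  have hD5 : D ≤ 5 * L := by rw [hD]; linarith
  have hlamKL : lam * (8192 * K * (L : ℝ) ^ 2) = 1 := by
    rw [hlam]
    field_simp
  have hK2 : (0 : ℝ) < 2 ^ K := by positivity
  have hhalf : (1 / 2 : ℝ) ^ K * 2 ^ K = 1 := by rw [← mul_pow]; norm_num
  have hhp : 0 < (1 / 2 : ℝ) ^ K := by positivity
  have h3K : (1 / 2 : ℝ) ^ (3 * K) = (1 / 2) ^ K * (1 / 2) ^ K * (1 / 2) ^ K := by
    rw [← pow_add, ← pow_add]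
    congr 1
    ring
  have hhK : (1 / 2 : ℝ) ^ K * (8192 * K * L) ≤ 1 := by
    calc (1 / 2 : ℝ) ^ K * (8192 * K * L) ≤ (1 / 2) ^ K * 2 ^ K := by gcongr
      _ = 1 := hhalf
  have key := steer_step (idx K) hB (fun p => M U p.1 p.2 a ℓ) (fun p => W U n r p.1 p.2 a ℓ) (fun p => (1 / 2 : ℝ) ^ p.1)
    (fun p b => M U p.1 p.2 (a + b * (ℓ / B)) (ℓ / B) - M U p.1 p.2 a ℓ)
    (fun p b => W U (n + L) r p.1 p.2 (a + b * (ℓ / B)) (ℓ / B)) (lam := lam) (D := D) (E₁ := 80 * (L : ℝ) ^ 2)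
    (E₂ := 4 * (r : ℝ) ^ 2) (E₃ := (r : ℝ) ^ 2) (γ := 1 / (2 * K)) (τ := 16 ^ K) (μ₀ := (1 / 2) ^ K) (K := K) (ρ := ρ)
    hlam0 hD0 (by
      have h1 : lam * D ≤ lam * (5 * L) := by gcongr
      have h2 : lam * (5 * L) ≤ 1 / 2 := by
        have h3 : 10 * (L : ℝ) ≤ 8192 * K * (L : ℝ) ^ 2 := by nlinarith [mul_nonneg (by linarith : (0:ℝ) ≤ K) (by linarith : (0:ℝ) ≤ L)]
        have h4 : lam * (10 * L) ≤ lam * (8192 * K * (L : ℝ) ^ 2) := by gcongr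
        linarith
      linarith) (by positivity) (by positivity) (by positivity) (by positivity)
    (fun p _ => by
      rw [Finset.sum_sub_distrib, M_children hβ hw hB hw' p.1 p.2, Finset.sum_const, Finset.card_range, nsmul_eq_mul]
      ring)
    (fun p hp b hb => by
      rw [hD]
      exact M_inc hβ hw hNB (lt_of_idx hp) p.2 hB hb (hw' b hb))
    (fun p hp => M_var hβ hw hm hNB (lt_of_idx hp) p.2 hB hw' hCL (by omega))
    (fun p _ => W_nonneg n r p.1 p.2 a hℓ) (fun p _ => W_le hw.meas n r p.1 p.2 a hℓ)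
    (fun p _ b _ => W_nonneg (n + L) r p.1 p.2 _ hℓB) (fun p _ b _ => W_le hw.meas (n + L) r p.1 p.2 _ hℓB)
    (fun p _ => W_mean p.1 p.2 hw hm hB (by omega))
    (fun g => gain (by omega) hw.meas hℓ hB hPC g)
    (fun p hp => pow_le_pow_of_le_one (by norm_num) (by norm_num) (lt_of_idx hp).le)
    (sum_mu K).le
    (by
      have h1 : (1 / 2 : ℝ) ^ K * 16 ^ K = 8 ^ K := by rw [← mul_pow]; norm_num
      rw [h1]
      have h2 : ∀ m : ℕ, 2 ≤ m → 16 * (m : ℝ) ≤ 8 ^ m := by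
        intro m hm
        induction m, hm using Nat.le_induction with
        | base => norm_num
        | succ m hm ih =>
          have hm' : (2 : ℝ) ≤ m := by exact_mod_cast hm
          push_cast
          rw [pow_succ]
          linarith
      exact h2 K hK)
    (by linarith)
    (by
      have h1 : lam * r ≤ 1 / 2 := by
        have h3 : 2 * (r : ℝ) ≤ 8192 * K * (L : ℝ) ^ 2 := by nlinarith [mul_nonneg (by linarith : (0:ℝ) ≤ K) (by linarith : (0:ℝ) ≤ L)]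
        have h4 : lam * (2 * r) ≤ lam * (8192 * K * (L : ℝ) ^ 2) := by gcongr
        linarith
      have h2 : 0 ≤ lam * r := by positivity
      nlinarith)
    (by
      have h1 : 80 * (L : ℝ) ^ 2 + 8 * (4 * (r : ℝ) ^ 2) ≤ 84 * (L : ℝ) ^ 2 := by nlinarith
      have h2 : 24 * lam * (84 * (L : ℝ) ^ 2) ≤ 1 / (2 * K) := by
        rw [le_div_iff₀ (by positivity)]
        have h3 : 24 * lam * (84 * (L : ℝ) ^ 2) * (2 * K) = 4032 / 8192 * (lam * (8192 * K * (L : ℝ) ^ 2)) := by ring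
        rw [h3, hlamKL]
        norm_num
      exact le_trans (by gcongr) h2)
    (by
      rw [← hlam] at hPot
      exact hPot)
    (by
      rw [hρ, h3K]
      have h1 : (1 / 2 : ℝ) ^ K ≤ 1 / 4 := by
        calc (1 / 2 : ℝ) ^ K ≤ (1 / 2) ^ 2 := pow_le_pow_of_le_one (by norm_num) (by norm_num) hK
          _ = 1 / 4 := by norm_num
      have h2 : (1 / 2 : ℝ) ^ K * (1 / 2) ^ K ≤ 1 / 4 * (1 / 4) := by gcongr
      have h3 : (1 / 2 : ℝ) ^ K * (1 / 2) ^ K * (1 / 2) ^ K ≤ 1 / 4 * (1 / 4) * (1 / 4) := by gcongr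
      linarith)
    (by
      rw [hρ, h3K]
      have h1 : (1 / 2 : ℝ) ^ K ≤ lam * L := by
        have h3 : (1 / 2 : ℝ) ^ K * (8192 * K * L) ≤ (lam * L) * (8192 * K * L) := by
          calc (1 / 2 : ℝ) ^ K * (8192 * K * L) ≤ 1 := hhK
            _ = lam * (8192 * K * (L : ℝ) ^ 2) := hlamKL.symm
            _ = (lam * L) * (8192 * K * L) := by ring
        exact le_of_mul_le_mul_right h3 (by positivity)
      have h2 : (1 / 2 : ℝ) ^ K * (1 / 2) ^ K ≤ (lam * L) * (lam * L) := by gcongr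
      calc 2 * ((1 / 2 : ℝ) ^ K * (1 / 2) ^ K * (1 / 2) ^ K) ≤ 2 * ((lam * L) * (lam * L) * (1 / 2) ^ K) := by gcongr
        _ ≤ 10 * ((lam * L) * (lam * L) * (1 / 2) ^ K) := by
          have : 0 ≤ (lam * L) * (lam * L) * (1 / 2 : ℝ) ^ K := by positivity
          linarith
        _ = lam ^ 2 * (80 * (L : ℝ) ^ 2) * (1 / 2) ^ K / 8 := by ring)
    (by
      rw [hρ, h3K, le_div_iff₀ (by positivity)]
      have h1 : (1 / 2 : ℝ) ^ K ≤ 1 := pow_le_one₀ (by norm_num) (by norm_num)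
      have h4 : 1 / (2 * (K : ℝ)) * (1 / 2) ^ K = (1 / 2) ^ K * (1 / (2 * K)) := by ring
      rw [h4]
      have h5 : 2 * ((1 / 2 : ℝ) ^ K * (1 / 2) ^ K * (1 / 2) ^ K) * (8 * D) =
          (1 / 2) ^ K * ((1 / 2 : ℝ) ^ K * (1 / 2) ^ K * (16 * D)) := by ring
      rw [h5]
      apply mul_le_mul_of_nonneg_left _ hhp.le
      rw [le_div_iff₀ (by positivity)]
      calc (1 / 2 : ℝ) ^ K * (1 / 2) ^ K * (16 * D) * (2 * K) ≤ (1 / 2) ^ K * 1 * (16 * (5 * L)) * (2 * K) := by gcongr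
        _ = (1 / 2) ^ K * (160 * K * L) := by ring
        _ ≤ (1 / 2) ^ K * (8192 * K * L) := by
          apply mul_le_mul_of_nonneg_left _ hhp.le
          have : 0 ≤ (K : ℝ) * L := by positivity
          nlinarith
        _ ≤ 1 := hhK)
  rw [hρ] at key
  refine key.trans (Nat.cast_le.2 (Finset.card_le_card ?_))
  intro b hb
  rw [Finset.mem_filter] at hb ⊢
  refine ⟨hb.1, ?_⟩
  rw [← hlam]
  unfold Pot
  refine le_trans (le_of_eq ?_) hb.2
  refine Finset.sum_congr rfl fun p _ => ?_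
  rw [add_sub_cancel]

end Pool.Agent.Helper9.LD2
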